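import Mathlib
import Pool.Agent.NearOne652.Hyp4

set_option autoImplicit false

open Finset

namespace Pool.Agent.Results.MP_011c7a_nt.PadicIteratedIntegrals

/-- **No linear relations of bounded height between p-adic iterated integrals from `0` to `p^N`**
on the projective line minus the points `1/T_i = D/t_i` and infinity (and zero, for words that
contain `dx/x`). For a word `w` in the letters `none` (the form `dx/x`) and `some i` (the form
`T_i dx/(1 - T_i x)`), not ending in `none`, the p-adic iterated integral from `0` to `x`, `x` in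
the residue disc of zero, is the sum of the series `∑ cw T w n x^n`. -/
theorem result (p : ℕ) [Fact p.Prime] (K : Type) [Field K] [NumberField K] (σ : K →+* ℂ_[p])
    (k δ D N m : ℕ) (B : ℝ) (hD : ¬ p ∣ D) (hDB : (D : ℝ) ≤ B)
    (t : Fin k → K) (ht0 : ∀ i, t i ≠ 0) (htinj : Function.Injective t)
    (hti : ∀ i, IsIntegral ℤ (t i)) (htB : ∀ (φ : K →+* ℂ) i, ‖φ (t i)‖ ≤ B)
    (c : List (Option (Fin k)) →₀ K) (hc0 : c ≠ 0)
    (hcw : ∀ w ∈ c.support, w.length ≤ δ ∧ w.getLast? ≠ some none)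
    (hci : ∀ w, IsIntegral ℤ (c w))
    (hcB : ∀ φ : K →+* ℂ, ∑ w ∈ c.support, ‖φ (c w)‖ ≤ B)
    (hm : m = (k + 1) ^ δ)
    (hN : (((m + 1).factorial : ℝ) ^ δ * B ^ (2 * m)) ^ (Module.finrank ℚ K) < (p : ℝ) ^ N) :
    ∑ w ∈ c.support, σ (c w) *
      ∑' n : ℕ, σ (Pool.Agent.NearOne652.cw (fun i => t i / D) w n) * ((p : ℂ_[p]) ^ N) ^ n ≠ 0 :=
  Pool.Agent.NearOne652.hyperP p K σ k δ D N m B hD hDB t ht0 htinj hti htB c hc0 hcw hci hcB hm hN

end Pool.Agent.Results.MP_011c7a_nt.PadicIteratedIntegrals
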